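import Pool.Agent.H3.OD.Targets
import Pool.Agent.H64.SC.Api

/-!
# MP_70ba79_ag: embedding of a field with a rational place in the Hahn series (BRF)
-/

set_option autoImplicit false

namespace Pool.Agent.H3.OD

open MvPolynomial SC Pool.Agent.H92.OD

theorem sg_one_pow {k : Type} [Field k] (r : ℚ) (n : ℕ) : (sg r (1 : k)) ^ n = sg (n * r) 1 := by
  induction n with
  | zero => simp [sg_zero_one]
  | succ n ih =>
    rw [pow_succ, ih, sg_mul_sg, one_mul]
    congr 1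
    push_cast
    ring

theorem isO_sg {k : Type} [Field k] (r : ℚ) : IsO (sg r (1 : k)) r :=
  ⟨by rw [cf_sg, if_pos rfl]; exact one_ne_zero, geO_sg r 1⟩

/-- BRF: embedding with an element of value `n` sent to `u` -/
theorem pf_BRF (EXN : T_EXN) (LTF : T_LTF) (RTP : T_RTP) (PSH : T_PSH) : T_BRF := by
  intro k F _ _ _ _ _ v u n hR hn hu
  have hu0 : u ≠ 0 := by
    rintro rfl
    rw [v.ord_zero] at hu
    omega
  obtain ⟨φ₁, -, hφ₁⟩ := EXN k F v v.unif 1 hR v.ord_unif one_pos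
  -- the unit part of `φ₁ u`
  obtain ⟨y, hy⟩ : ∃ y, y = φ₁ u := ⟨_, rfl⟩
  have hyO : IsO y (n : ℚ) := by
    have h1 := hφ₁.ord u hu0
    rw [hu] at h1
    rw [hy]
    simpa using h1
  have hyL : Lat 1 y := by rw [hy]; exact hφ₁.lat u
  obtain ⟨e, he⟩ : ∃ e : HS k, e = sg (-(n : ℚ)) 1 * y := ⟨_, rfl⟩
  have hye : y = sg (n : ℚ) 1 * e := by
    rw [he, ← mul_assoc, sg_mul_sg, add_neg_cancel, one_mul, sg_zero_one, one_mul]
  have heO : IsO e 0 := by
    have h1 := (isO_sg (k := k) (-(n : ℚ))).mul hyO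
    rw [← he, neg_add_cancel] at h1
    exact h1
  have heL : ∀ r, cf e r ≠ 0 → ∃ m : ℕ, r = (m : ℚ) / (1 : ℕ) := by
    intro r hr
    have h1 : ¬ r < 0 := fun h => hr (heO.2 r h)
    rw [he, cf_sg_mul, one_mul] at hr
    obtain ⟨m, hm⟩ := hyL _ hr
    push_cast at hm
    have h2 : r = ((m - n : ℤ) : ℚ) := by
      push_cast
      linarith
    have h3 : 0 ≤ m - n := by
      rw [h2] at h1
      have h4 : ¬ ((m - n : ℤ)) < 0 := fun h => h1 (by exact_mod_cast h)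
      omega
    obtain ⟨j, hj⟩ := Int.eq_ofNat_of_zero_le h3
    refine ⟨j, ?_⟩
    rw [h2, hj]
    simp
  obtain ⟨E, hEC, hEX, hEc, hE0⟩ := PSH k 1 one_pos
  obtain ⟨f, hf⟩ : ∃ f : PowerSeries k, ∀ m, PowerSeries.coeff m f = cf e m :=
    ⟨PowerSeries.mk fun m => cf e m, fun m => PowerSeries.coeff_mk m _⟩
  have hEf : E f = e := by
    refine hs_ext fun r => ?_
    by_cases h : ∃ m : ℕ, r = (m : ℚ) / (1 : ℕ)
    · obtain ⟨m, hm⟩ := h
      rw [hm, hEc, hf]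
      simp
    · rw [hE0 f r (fun m hm => h ⟨m, hm⟩)]
      by_contra hc
      exact h (heL r (Ne.symm hc))
  have hf0 : PowerSeries.constantCoeff f ≠ 0 := by
    have h1 := hf 0
    rw [PowerSeries.coeff_zero_eq_constantCoeff] at h1
    rw [h1, Nat.cast_zero]
    exact heO.1
  obtain ⟨g, hg⟩ := RTP k n f hn hf0
  have hg0 : PowerSeries.constantCoeff g ≠ 0 := by
    intro h
    apply hf0
    rw [← hg, map_pow, h, zero_pow hn.ne']
  have hηn : (E g) ^ n = e := by rw [← map_pow, hg, hEf]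
  have hηO : IsO (E g) 0 := by
    constructor
    · have h1 := hEc g 0
      rw [PowerSeries.coeff_zero_eq_constantCoeff] at h1
      have h2 : ((0 : ℕ) : ℚ) / (1 : ℕ) = 0 := by simp
      rw [h2] at h1
      rw [h1]
      exact hg0
    · intro r hr
      refine hE0 g r (fun m hm => ?_)
      have h2 : (0 : ℚ) ≤ (m : ℚ) / (1 : ℕ) := by positivity
      rw [← hm] at h2
      linarith
  obtain ⟨τ, hτ⟩ : ∃ τ : HS k, τ = sg 1 1 * E g := ⟨_, rfl⟩
  have hτn : τ ^ n = y := by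
    rw [hτ, mul_pow, hηn, sg_one_pow, mul_one, hye]
  have hτO : IsO τ 1 := by
    have h1 := (isO_sg (k := k) 1).mul hηO
    rw [← hτ, add_zero] at h1
    exact h1
  have hτL : Lat 1 τ := by
    intro r hr
    rw [hτ, cf_sg_mul, one_mul] at hr
    by_contra hc
    refine hr (hE0 g (r - 1) (fun m hm => hc ⟨m + 1, ?_⟩))
    push_cast at hm ⊢
    linarith
  -- the second embedding
  obtain ⟨L, v₁, hL, hR₁, hord⟩ := LTF k
  have hτ' : (⟨τ, (hL τ).2 hτL⟩ : L) ≠ 0 := by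
    intro h
    exact hτO.ne_zero (congrArg Subtype.val h)
  have h1 : v₁.ord (⟨τ, (hL τ).2 hτL⟩ : L) = 1 := by
    have h2 := (hord _ hτ').unique hτO
    exact_mod_cast h2
  obtain ⟨φ₂, hφ₂τ, hφ₂⟩ := EXN k L v₁ ⟨τ, (hL τ).2 hτL⟩ n hR₁ h1 hn
  have hmem : ∀ z, φ₁ z ∈ L := fun z => (hL _).2 (hφ₁.lat z)
  obtain ⟨ψ, hψ⟩ : ∃ ψ : F →ₐ[k] L, ∀ z, ((ψ z : L) : HS k) = φ₁ z :=
    ⟨{ toFun := fun z => ⟨φ₁ z, hmem z⟩
       map_one' := Subtype.ext (map_one φ₁)
       map_mul' := fun x y => Subtype.ext (map_mul φ₁ x y)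
       map_zero' := Subtype.ext (map_zero φ₁)
       map_add' := fun x y => Subtype.ext (map_add φ₁ x y)
       commutes' := fun c => Subtype.ext (φ₁.commutes c) }, fun z => rfl⟩
  refine ⟨φ₂.comp ψ, ?_, ?_, ?_⟩
  · have h2 : ψ u = (⟨τ, (hL τ).2 hτL⟩ : L) ^ n := by
      refine Subtype.ext ?_
      rw [hψ, ← hy, ← hτn]
      rfl
    have hnQ : (n : ℚ) ≠ 0 := Nat.cast_ne_zero.2 hn.ne'
    rw [AlgHom.comp_apply, h2, map_pow, hφ₂τ, sg_one_pow, mul_one_div_cancel hnQ]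
    rfl
  · intro z hz
    have h2 : ψ z ≠ 0 := by
      rw [Ne, map_eq_zero]
      exact hz
    have h3 := hord (ψ z) h2
    rw [hψ] at h3
    have h4 := h3.unique (hφ₁.ord z hz)
    have h5 : v₁.ord (ψ z) = v.ord z := by
      push_cast at h4
      rw [div_one] at h4
      exact_mod_cast h4
    have h6 := hφ₂.ord (ψ z) h2
    rw [h5] at h6
    exact h6
  · intro z
    exact hφ₂.lat (ψ z)

end Pool.Agent.H3.OD
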