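import Pool.Agent.H3.OD.Targets

/-!
# MP_70ba79_ag: elimination (ELM)
-/

set_option autoImplicit false

namespace Pool.Agent.H3.OD

open MvPolynomial SC Pool.Agent.H92.OD

section

variable {k K : Type} [Field k] [Field K] [Algebra k K]

/-- chain rule -/
theorem elm_chain (D : Derivation k K K) (x y : K) (p : MvPolynomial (Fin 2) k) :
    D (aeval ![x, y] p) = aeval ![x, y] (pderiv 0 p) * D x + aeval ![x, y] (pderiv 1 p) * D y := by
  induction p using MvPolynomial.induction_on with
  | C c =>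
    rw [aeval_C, D.map_algebraMap, pderiv_C, pderiv_C, map_zero]
    ring
  | add p q hp hq =>
    rw [map_add, map_add, hp, hq, map_add, map_add, map_add, map_add]
    ring
  | mul_X p i hp =>
    have h : ∀ j : Fin 2, aeval ![x, y] (pderiv j (p * X i)) =
        aeval ![x, y] (pderiv j p) * ![x, y] i +
          aeval ![x, y] p * (if j = i then 1 else 0) := by
      intro j
      rw [pderiv_mul, map_add, map_mul, map_mul, aeval_X]
      congr 2
      by_cases hij : j = i
      · subst hij
        rw [pderiv_X_self, map_one, if_pos rfl]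
      · rw [pderiv_X_of_ne (Ne.symm hij), map_zero, if_neg hij]
    rw [map_mul, aeval_X, D.leibniz, hp, h, h, smul_eq_mul, smul_eq_mul]
    fin_cases i
    · simp
      ring
    · simp
      ring

/-- two variables as the first two of three variables -/
noncomputable def up2 (k : Type) [Field k] : MvPolynomial (Fin 2) k →ₐ[k] MvPolynomial (Fin 3) k :=
  aeval ![X 0, X 1]

theorem up2_eval (x y t : K) (p : MvPolynomial (Fin 2) k) :
    aeval ![x, y, t] (up2 k p) = aeval ![x, y] p := by
  unfold up2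
  rw [comp_aeval_apply]
  have h : (fun i => aeval ![x, y, t] ((![X 0, X 1] : Fin 2 → MvPolynomial (Fin 3) k) i)) =
      ![x, y] := by
    funext i
    fin_cases i
    · exact aeval_X _ _
    · exact aeval_X _ _
  rw [h]

/-- the factor of `D u` -/
noncomputable def elE (a b : MvPolynomial (Fin 2) k) : MvPolynomial (Fin 3) k :=
  up2 k b * (up2 k (pderiv 0 a) + X 2 * up2 k (pderiv 1 a)) -
    up2 k a * (up2 k (pderiv 0 b) + X 2 * up2 k (pderiv 1 b))

theorem elE_eval (a b : MvPolynomial (Fin 2) k) (D : Derivation k K K) {x y u : K}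
    (hx : D x ≠ 0) (hb : aeval ![x, y] b ≠ 0) (hu : u = aeval ![x, y] a / aeval ![x, y] b)
    (hDu : D u = u) : aeval ![x, y, D y / D x] (elE a b) * D x =
      aeval ![x, y] a * aeval ![x, y] b := by
  obtain ⟨α, hα⟩ : ∃ α, α = aeval ![x, y] a := ⟨_, rfl⟩
  obtain ⟨β, hβ⟩ : ∃ β, β = aeval ![x, y] b := ⟨_, rfl⟩
  rw [← hα, ← hβ] at hu
  rw [← hβ] at hb
  have h1 : D α * β - α * D β = α * β := by
    have h2 : α = u * β := by rw [hu, div_mul_cancel₀ _ hb]
    have h3 : D α = u * D β + β * D u := by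
      have h4 := D.leibniz u β
      rw [← h2] at h4
      exact h4
    rw [h3, hDu, h2]
    ring
  have hDα := elm_chain D x y a
  have hDβ := elm_chain D x y b
  rw [← hα] at hDα
  rw [← hβ] at hDβ
  have hX2 : aeval ![x, y, D y / D x] (X 2 : MvPolynomial (Fin 3) k) = D y / D x := aeval_X _ _
  unfold elE
  rw [map_sub, map_mul, map_mul, map_add, map_add, map_mul, map_mul, hX2, up2_eval, up2_eval,
    up2_eval, up2_eval, up2_eval, up2_eval, ← hα, ← hβ, ← h1, hDα, hDβ]
  field_simp

/-- the conclusion of ELM for one polynomial -/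
def ElSt (a b : MvPolynomial (Fin 2) k) (Q : MvPolynomial (Fin 3) k) : Prop :=
  ∃ Qx Qy : MvPolynomial (Fin 3) k, Qx ≠ 0 ∧ Qy ≠ 0 ∧
  ∀ (K : Type) [Field K] [Algebra k K] (X Y u : K) (D : Derivation k K K), D X ≠ 0 →
    aeval ![X, Y, D Y / D X] Q = 0 → aeval ![X, Y] b ≠ 0 →
    u = aeval ![X, Y] a / aeval ![X, Y] b → u ≠ 0 → D u = u →
    aeval ![u, X, D X] Qx = 0 ∧ aeval ![u, Y, D Y] Qy = 0

theorem elSt_irr (DEP : T_DEP) (a b : MvPolynomial (Fin 2) k) (P : MvPolynomial (Fin 3) k)
    (hP : Irreducible P) : ElSt a b P := by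
  by_cases hdiv : P ∣ up2 k b * elE a b
  · refine ⟨1, 1, one_ne_zero, one_ne_zero, ?_⟩
    intro K _ _ x y u D hx hPx hb hu hu0 hDu
    exfalso
    have h1 := elE_eval a b D hx hb hu hDu
    obtain ⟨c, hc⟩ := hdiv
    have h2 : aeval ![x, y, D y / D x] (up2 k b * elE a b) = 0 := by
      rw [hc, map_mul, hPx, zero_mul]
    rw [map_mul, up2_eval] at h2
    have h3 := (mul_eq_zero.1 h2).resolve_left hb
    rw [h3, zero_mul] at h1
    have h4 : aeval ![x, y] a ≠ 0 := by
      intro h
      rw [h, zero_div] at hu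
      exact hu0 hu
    exact mul_ne_zero h4 hb h1.symm
  · obtain ⟨Qx, hQx, hRx⟩ := DEP k P hP
      ![up2 k a * elE a b, X 0 * (up2 k b * elE a b), up2 k a * up2 k b ^ 2]
      (up2 k b * elE a b) hdiv
    obtain ⟨Qy, hQy, hRy⟩ := DEP k P hP
      ![up2 k a * elE a b, X 1 * (up2 k b * elE a b), X 2 * (up2 k a * up2 k b ^ 2)]
      (up2 k b * elE a b) hdiv
    refine ⟨Qx, Qy, hQx, hQy, ?_⟩
    intro K _ _ x y u D hx hPx hb hu hu0 hDu
    have h1 := elE_eval a b D hx hb hu hDu
    have h4 : aeval ![x, y] a ≠ 0 := by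
      intro h
      rw [h, zero_div] at hu
      exact hu0 hu
    have hE : aeval ![x, y, D y / D x] (elE a b) ≠ 0 := by
      intro h
      rw [h, zero_mul] at h1
      exact mul_ne_zero h4 hb h1.symm
    have hh : aeval ![x, y, D y / D x] (up2 k b * elE a b) ≠ 0 := by
      rw [map_mul, up2_eval]
      exact mul_ne_zero hb hE
    have h5 := hRx K ![x, y, D y / D x] hPx hh
    have h6 := hRy K ![x, y, D y / D x] hPx hh
    obtain ⟨ε, hε⟩ : ∃ ε, ε = aeval ![x, y, D y / D x] (elE a b) := ⟨_, rfl⟩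
    obtain ⟨α, hα⟩ : ∃ α, α = aeval ![x, y] a := ⟨_, rfl⟩
    obtain ⟨β, hβ⟩ : ∃ β, β = aeval ![x, y] b := ⟨_, rfl⟩
    rw [← hε, ← hα, ← hβ] at h1
    rw [← hα, ← hβ] at hu
    rw [← hα] at h4
    rw [← hβ] at hb
    rw [← hε] at hE
    have h7 : ∀ w : MvPolynomial (Fin 3) k, aeval ![x, y, D y / D x] (w * (up2 k b * elE a b)) /
        aeval ![x, y, D y / D x] (up2 k b * elE a b) = aeval ![x, y, D y / D x] w := fun w => by
      rw [map_mul, mul_div_cancel_right₀ _ hh]
    have c0 : aeval ![x, y, D y / D x] (up2 k a * elE a b) /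
        aeval ![x, y, D y / D x] (up2 k b * elE a b) = u := by
      rw [map_mul, map_mul, up2_eval, up2_eval, ← hε, ← hα, ← hβ, mul_div_mul_right _ _ hE, hu]
    have c2 : aeval ![x, y, D y / D x] (up2 k a * up2 k b ^ 2) /
        aeval ![x, y, D y / D x] (up2 k b * elE a b) = D x := by
      rw [map_mul, map_mul, map_pow, up2_eval, up2_eval, ← hε, ← hα, ← hβ,
        div_eq_iff (mul_ne_zero hb hE)]
      linear_combination (-β) * h1
    have c3 : aeval ![x, y, D y / D x] (X 2 * (up2 k a * up2 k b ^ 2)) /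
        aeval ![x, y, D y / D x] (up2 k b * elE a b) = D y := by
      rw [map_mul, mul_div_assoc, c2, aeval_X]
      change D y / D x * D x = D y
      rw [div_mul_cancel₀ _ hx]
    constructor
    · have h8 : (fun i => aeval ![x, y, D y / D x]
          ((![up2 k a * elE a b, X 0 * (up2 k b * elE a b), up2 k a * up2 k b ^ 2] :
            Fin 3 → MvPolynomial (Fin 3) k) i) /
          aeval ![x, y, D y / D x] (up2 k b * elE a b)) = ![u, x, D x] := by
        funext i
        fin_cases i
        · exact c0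
        · exact (h7 _).trans (aeval_X _ _)
        · exact c2
      rw [h8] at h5
      exact h5
    · have h8 : (fun i => aeval ![x, y, D y / D x]
          ((![up2 k a * elE a b, X 1 * (up2 k b * elE a b), X 2 * (up2 k a * up2 k b ^ 2)] :
            Fin 3 → MvPolynomial (Fin 3) k) i) /
          aeval ![x, y, D y / D x] (up2 k b * elE a b)) = ![u, y, D y] := by
        funext i
        fin_cases i
        · exact c0
        · exact (h7 _).trans (aeval_X _ _)
        · exact c3
      rw [h8] at h6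
      exact h6

end

/-- ELM: elimination -/
theorem pf_ELM (DEP : T_DEP) : T_ELM := by
  intro k _ _ Q1 a b hQ1
  have key : Q1 ≠ 0 → ElSt a b Q1 := by
    induction Q1 using UniqueFactorizationMonoid.induction_on_prime with
    | h₁ => intro h; exact absurd rfl h
    | h₂ Q hQ =>
      intro _
      refine ⟨1, 1, one_ne_zero, one_ne_zero, ?_⟩
      intro K _ _ x y u D hx hPx hb hu hu0 hDu
      exact absurd hPx (hQ.map (aeval ![x, y, D y / D x])).ne_zero
    | h₃ Q p hQ hp ih =>
      intro _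
      obtain ⟨Rx, Ry, hRx, hRy, hR⟩ := elSt_irr DEP a b p hp.irreducible
      obtain ⟨Sx, Sy, hSx, hSy, hS⟩ := ih hQ hQ
      refine ⟨Rx * Sx, Ry * Sy, mul_ne_zero hRx hSx, mul_ne_zero hRy hSy, ?_⟩
      intro K _ _ x y u D hx hPx hb hu hu0 hDu
      rw [map_mul] at hPx
      rcases mul_eq_zero.1 hPx with h | h
      · obtain ⟨h1, h2⟩ := hR K x y u D hx h hb hu hu0 hDu
        rw [map_mul, map_mul, h1, h2, zero_mul, zero_mul]
        exact ⟨rfl, rfl⟩
      · obtain ⟨h1, h2⟩ := hS K x y u D hx h hb hu hu0 hDu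
        rw [map_mul, map_mul, h1, h2, mul_zero, mul_zero]
        exact ⟨rfl, rfl⟩
  exact key hQ1

end Pool.Agent.H3.OD
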