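import Pool.Agent.H3.OD.Targets
import Pool.Agent.H27.LV.Curve

/-!
# MP_70ba79_ag: the degree of the solutions of a first order differential equation (FO)
-/

set_option autoImplicit false

namespace Pool.Agent.H3.OD

open MvPolynomial SC Pool.Agent.H92.OD
open Pool.Agent.H27.LV (ge deg poleOrder)

/-- the local bound -/
theorem fo_loc {k K : Type} [Field k] [Field K] [Algebra k K] (v : DV k K) (g X Y : K) (d : ℕ)
    (q0 q1 q2 : ℕ) (hg : g ≠ 0) (h0 : v.ord g ≤ q0) (h1 : X ≠ 0 → v.ord (g / X ^ d) ≤ q1)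
    (h2 : Y ≠ 0 → v.ord (g / Y ^ d) ≤ q2) :
    v.ord g - d * min 0 (min (v.ord X) (v.ord Y)) ≤ q0 + q1 + q2 := by
  have key : ∀ W : K, W ≠ 0 → v.ord (g / W ^ d) = v.ord g - d * v.ord W := fun W hW => by
    rw [v.ord_div hg (pow_ne_zero d hW), v.ord_pow]
  rcases lt_or_ge (min (v.ord X) (v.ord Y)) 0 with h | h
  · rw [min_eq_right h.le]
    rcases le_total (v.ord X) (v.ord Y) with h3 | h3
    · rw [min_eq_left h3] at h ⊢
      have hX : X ≠ 0 := by
        rintro rfl
        rw [v.ord_zero] at h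
        omega
      have h4 := h1 hX
      rw [key X hX] at h4
      linarith [Int.natCast_nonneg q0, Int.natCast_nonneg q2]
    · rw [min_eq_right h3] at h ⊢
      have hY : Y ≠ 0 := by
        rintro rfl
        rw [v.ord_zero] at h
        omega
      have h4 := h2 hY
      rw [key Y hY] at h4
      linarith [Int.natCast_nonneg q0, Int.natCast_nonneg q1]
  · rw [min_eq_left h, mul_zero, sub_zero]
    linarith [Int.natCast_nonneg q1, Int.natCast_nonneg q2]

/-- a derivation which vanishes on the generators is zero -/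
theorem fo_der {k K : Type} [Field k] [Field K] [Algebra k K] {X Y : K} (D : Derivation k K K)
    (h : IntermediateField.adjoin k {X, Y} = ⊤) (hX : D X = 0) (hY : D Y = 0) : D = 0 := by
  ext z
  have hz : z ∈ IntermediateField.adjoin k {X, Y} := by rw [h]; exact IntermediateField.mem_top
  rw [Derivation.zero_apply]
  induction hz using IntermediateField.adjoin_induction with
  | mem w hw =>
    rcases hw with rfl | rfl
    · exact hX
    · exact hY
  | algebraMap c => rw [D.map_algebraMap]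
  | add w w' _ _ h1 h2 => rw [map_add, h1, h2, add_zero]
  | mul w w' _ _ h1 h2 => rw [D.leibniz, h1, h2, smul_zero, smul_zero, add_zero]
  | inv w _ h1 => rw [D.leibniz_inv, h1, smul_zero]

/-- FO: the degree of the solutions of a differential equation of first order -/
theorem pf_FO (RAM : T_RAM) (SU1 : T_SU1) : T_FO := by
  intro k _ _ _ d G Q1 hQ1
  obtain ⟨ga, hga⟩ : ∃ ga : MvPolynomial (Fin 2) k, ga = aeval ![1, X 0, X 1] G := ⟨_, rfl⟩
  obtain ⟨gs, hgs⟩ : ∃ gs : MvPolynomial (Fin 2) k, gs = aeval ![1, X 1, X 0] G := ⟨_, rfl⟩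
  have hX2 : (X 2 : MvPolynomial (Fin 3) k) ≠ 0 := X_ne_zero 2
  obtain ⟨q0, h0⟩ := RAM k Q1 ga 1 hQ1
  obtain ⟨q1, h1⟩ := RAM k Q1 ga (X 0 ^ d) hQ1
  obtain ⟨q2, h2⟩ := RAM k Q1 ga (X 1 ^ d) hQ1
  obtain ⟨p0, g0⟩ := RAM k (X 2) gs 1 hX2
  obtain ⟨p1, g1⟩ := RAM k (X 2) gs (X 0 ^ d) hX2
  obtain ⟨p2, g2⟩ := RAM k (X 2) gs (X 1 ^ d) hX2
  refine ⟨q0 + q1 + q2 + (p0 + p2 + p1), ?_⟩
  intro K _ _ _ htr x y D hxy hD hQ hG S hS
  have e1 : aeval ![x, y] ga = aeval ![1, x, y] G := by
    rw [hga, comp_aeval_apply]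
    have h : (fun i => aeval ![x, y] ((![1, X 0, X 1] : Fin 3 → MvPolynomial (Fin 2) k) i)) =
        ![(1 : K), x, y] := by
      funext i
      fin_cases i
      · exact map_one _
      · exact aeval_X _ _
      · exact aeval_X _ _
    rw [h]
  have e2 : aeval ![y, x] gs = aeval ![1, x, y] G := by
    rw [hgs, comp_aeval_apply]
    have h : (fun i => aeval ![y, x] ((![1, X 1, X 0] : Fin 3 → MvPolynomial (Fin 2) k) i)) =
        ![(1 : K), x, y] := by
      funext i
      fin_cases i
      · exact map_one _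
      · exact aeval_X _ _
      · exact aeval_X _ _
    rw [h]
  obtain ⟨g, hg⟩ : ∃ g, g = aeval ![1, x, y] G := ⟨_, rfl⟩
  rw [← hg] at hG hS e1 e2
  have hX0 : ∀ z w : K, aeval ![z, w] ((X 0 : MvPolynomial (Fin 2) k) ^ d) = z ^ d := fun z w => by
    rw [map_pow, aeval_X]
    rfl
  have hX1 : ∀ z w : K, aeval ![z, w] ((X 1 : MvPolynomial (Fin 2) k) ^ d) = w ^ d := fun z w => by
    rw [map_pow, aeval_X]
    rfl
  have hone : ∀ z w : K, aeval ![z, w] (1 : MvPolynomial (Fin 2) k) = 1 := fun z w => map_one _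
  have hloc : ∀ v : DV k K, v.ord g - d * min 0 (min (v.ord x) (v.ord y)) ≤
      ((q0 + q1 + q2 + (p0 + p2 + p1) : ℕ) : ℤ) := by
    intro v
    by_cases hx : D x = 0
    · have hy : D y ≠ 0 := fun h => hD (fo_der D hxy hx h)
      have hyx : IntermediateField.adjoin k {y, x} = ⊤ := by
        rw [Set.pair_comm]
        exact hxy
      have hq : aeval ![y, x, D x / D y] (X 2 : MvPolynomial (Fin 3) k) = 0 := by
        rw [aeval_X]
        change D x / D y = 0
        rw [hx, zero_div]
      have k0 := g0 K htr y x D hyx hy hq (by rw [hone]; exact one_ne_zero) v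
      have k1 : y ≠ 0 → v.ord (g / y ^ d) ≤ p1 := fun h => by
        have := g1 K htr y x D hyx hy hq (by rw [hX0]; exact pow_ne_zero d h) v
        rwa [hX0, e2] at this
      have k2 : x ≠ 0 → v.ord (g / x ^ d) ≤ p2 := fun h => by
        have := g2 K htr y x D hyx hy hq (by rw [hX1]; exact pow_ne_zero d h) v
        rwa [hX1, e2] at this
      rw [hone, div_one, e2] at k0
      have := fo_loc v g x y d p0 p2 p1 hG k0 k2 k1
      push_cast
      linarith [Int.natCast_nonneg q0, Int.natCast_nonneg q1, Int.natCast_nonneg q2]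
    · have hq := hQ hx
      have k0 := h0 K htr x y D hxy hx hq (by rw [hone]; exact one_ne_zero) v
      have k1 : x ≠ 0 → v.ord (g / x ^ d) ≤ q1 := fun h => by
        have := h1 K htr x y D hxy hx hq (by rw [hX0]; exact pow_ne_zero d h) v
        rwa [hX0, e1] at this
      have k2 : y ≠ 0 → v.ord (g / y ^ d) ≤ q2 := fun h => by
        have := h2 K htr x y D hxy hx hq (by rw [hX1]; exact pow_ne_zero d h) v
        rwa [hX1, e1] at this
      rw [hone, div_one, e1] at k0
      have := fo_loc v g x y d q0 q1 q2 hG k0 k1 k2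
      push_cast
      linarith [Int.natCast_nonneg p0, Int.natCast_nonneg p1, Int.natCast_nonneg p2]
  have hsum := SU1 k K htr d g x y hG S hS
  have hfin : ((d * deg k ![x, y] : ℕ) : ℤ) ≤
      (((q0 + q1 + q2 + (p0 + p2 + p1)) * S.card : ℕ) : ℤ) := by
    rw [Nat.cast_mul, hsum]
    refine (Finset.sum_le_card_nsmul S _ _ (fun v _ => hloc v)).trans (le_of_eq ?_)
    rw [nsmul_eq_mul, Nat.cast_mul, mul_comm]
  exact_mod_cast hfin

end Pool.Agent.H3.OD
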