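import Pool.Agent.H3.OD.Targets
import Pool.Agent.H27.LV.Curve

/-!
# MP_70ba79_ag: bounded contact of the solutions of a first order differential equation (RAM)
-/

set_option autoImplicit false

namespace Pool.Agent.H3.OD

open MvPolynomial SC Pool.Agent.H92.OD

theorem lat_mul_left {k : Type} [Field k] {p q : ℕ} {y : HS k} (h : Lat p y) : Lat (p * q) y := by
  intro r hr
  obtain ⟨m, hm⟩ := h r hr
  refine ⟨m * q, ?_⟩
  push_cast
  rw [← hm]
  ring

theorem lat_mul_right {k : Type} [Field k] {p q : ℕ} {y : HS k} (h : Lat q y) :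
    Lat (p * q) y := by
  rw [mul_comm]
  exact lat_mul_left h

/-- evaluation of a differential polynomial under an embedding -/
theorem ev_emb {k K : Type} [Field k] [CharZero k] [Field K] [Algebra k K] (φ : K →ₐ[k] HS k)
    (u z w : K) (hu : φ u = uu k) (hw : φ w = DF (φ z)) (Q : MvPolynomial (Fin 3) k)
    (h : aeval ![u, z, w] Q = 0) : ev Q (φ z) = 0 := by
  have h1 : (fun i => φ ((![u, z, w] : Fin 3 → K) i)) = ![uu k, φ z, DF (φ z)] := by
    funext i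
    fin_cases i
    · exact hu
    · rfl
    · exact hw
  have h2 := congrArg φ h
  rw [map_zero] at h2
  unfold ev
  rw [← h1, ← h2]
  exact (MvPolynomial.comp_aeval_apply _ φ Q).symm

/-- RAM: bounded contact -/
theorem pf_RAM (T3 : T_T3) (ELM : T_ELM) (BRG : T_BRG) (LTN : T_LTN) : T_RAM := by
  intro k _ _ _ Q1 a b hQ1
  obtain ⟨Qx, Qy, hQx, hQy, helm⟩ := ELM k Q1 a b hQ1
  obtain ⟨qx, hqx, hx⟩ := T3 k Qx hQx
  obtain ⟨qy, hqy, hy⟩ := T3 k Qy hQy
  refine ⟨qx * qy, ?_⟩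
  intro K _ _ _ htr X Y D hXY hDX hQ hb v
  obtain ⟨u, hu⟩ : ∃ u, u = aeval ![X, Y] a / aeval ![X, Y] b := ⟨_, rfl⟩
  rw [← hu]
  by_contra hcon
  push Not at hcon
  have hq0 : 0 < qx * qy := Nat.mul_pos hqx hqy
  obtain ⟨n, hn⟩ : ∃ n : ℕ, v.ord u = n :=
    ⟨(v.ord u).toNat, (Int.toNat_of_nonneg (by omega)).symm⟩
  have hn0 : 0 < n := by
    have h1 : (0 : ℤ) < (qx * qy : ℕ) := by exact_mod_cast hq0
    rw [hn] at hcon
    omega
  have hu0 : u ≠ 0 := by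
    rintro rfl
    rw [v.ord_zero] at hn
    omega
  have hD0 : D ≠ 0 := by
    rintro rfl
    exact hDX rfl
  have hDu : D u ≠ 0 := by
    intro h
    obtain ⟨c, hc⟩ := Pool.Agent.H27.LV.ker k K htr D hD0 u h
    rw [← hc, v.ord_base] at hn
    omega
  obtain ⟨D', hD'⟩ : ∃ D' : Derivation k K K, ∀ z, D' z = u / D u * D z :=
    ⟨(u / D u) • D, fun z => rfl⟩
  have hq1 : u / D u ≠ 0 := div_ne_zero hu0 hDu
  have hD'u : D' u = u := by rw [hD', div_mul_cancel₀ _ hDu]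
  have hD'X : D' X ≠ 0 := by
    rw [hD']
    exact mul_ne_zero hq1 hDX
  have hrat : D' Y / D' X = D Y / D X := by
    rw [hD', hD', mul_div_mul_left _ _ hq1]
  obtain ⟨h1, h2⟩ := helm K X Y u D' hD'X (by rw [hrat]; exact hQ) hb hu hu0 hD'u
  obtain ⟨φ, hφu, hφ, hφD⟩ := BRG k K htr v u n hn0 hn
  have hlx : Lat qx (φ X) := hx (φ X) ⟨n, hn0, hφ.lat X⟩
    (ev_emb φ u X (D' X) hφu (hφD D' hD'u X) Qx h1)
  have hly : Lat qy (φ Y) := hy (φ Y) ⟨n, hn0, hφ.lat Y⟩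
    (ev_emb φ u Y (D' Y) hφu (hφD D' hD'u Y) Qy h2)
  obtain ⟨L, hL⟩ := LTN k (qx * qy) hq0
  have hall : ∀ z : K, φ z ∈ L := by
    intro z
    have h3 : IntermediateField.adjoin k {X, Y} ≤ L.comap φ := by
      rw [IntermediateField.adjoin_le_iff]
      rintro w (rfl | rfl)
      · exact (hL _).2 (lat_mul_left hlx)
      · exact (hL _).2 (lat_mul_right hly)
    rw [hXY] at h3
    exact h3 (IntermediateField.mem_top)
  have h4 := hφ.ord v.unif v.unif_ne_zero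
  rw [v.ord_unif] at h4
  obtain ⟨m, hm⟩ := (hL _).1 (hall v.unif) _ h4.1
  have hnQ : (n : ℚ) ≠ 0 := Nat.cast_ne_zero.2 hn0.ne'
  have h5 : ((qx * qy : ℕ) : ℤ) = m * n := by
    have h6 : ((qx * qy : ℕ) : ℚ) = m * n := by
      rw [← hm]
      field_simp
      push_cast
      ring
    exact_mod_cast h6
  have hdvd : (n : ℤ) ∣ ((qx * qy : ℕ) : ℤ) := ⟨m, by rw [h5]; ring⟩
  have h7 : (n : ℤ) ≤ ((qx * qy : ℕ) : ℤ) := Int.le_of_dvd (by exact_mod_cast hq0) hdvd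
  rw [hn] at hcon
  omega

end Pool.Agent.H3.OD
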