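import Pool.Agent.H3.OD.Targets
import Pool.Agent.H27.LV.Curve

/-!
# MP_70ba79_ag: the degree as a sum of local contributions (SU1)
-/

set_option autoImplicit false

namespace Pool.Agent.H3.OD

open MvPolynomial SC Pool.Agent.H92.OD
open Pool.Agent.H27.LV (ge deg poleOrder)

theorem poleOrder_two {k K : Type} [Field k] [Field K] [Algebra k K] (v : DV k K) (X Y : K) :
    (poleOrder v ![X, Y] : ℤ) = - min 0 (min (v.ord X) (v.ord Y)) := by
  have h : poleOrder v ![X, Y] = max (-(v.ord X)).toNat (-(v.ord Y)).toNat := by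
    unfold poleOrder
    have hu : (Finset.univ : Finset (Fin 2)) = {0, 1} := by decide
    rw [hu, Finset.sup_insert, Finset.sup_singleton]
    rfl
  rw [h]
  push_cast
  omega

/-- SU1: the degree as a sum of local contributions -/
theorem pf_SU1 : T_SU1 := by
  classical
  intro k K _ _ _ _ _ _ htr d g X Y hg S hS
  have hfin := Pool.Agent.H27.LV.pfi k K htr (Fin 2) ![X, Y]
  obtain ⟨hgfin, hgsum⟩ := Pool.Agent.H27.LV.pfm k K htr g
  obtain ⟨W, hW⟩ : ∃ W : Finset (DV k K), W = S ∪ (hfin.toFinset ∪ hgfin.toFinset) := ⟨_, rfl⟩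
  have hSW : S ⊆ W := by rw [hW]; exact Finset.subset_union_left
  have h1 : deg k ![X, Y] = ∑ v ∈ W, poleOrder v ![X, Y] := by
    unfold deg
    refine finsum_eq_sum_of_support_subset _ (fun v hv => ?_)
    rw [hW, Finset.coe_union, Finset.coe_union]
    refine Or.inr (Or.inl ?_)
    rw [Set.Finite.coe_toFinset]
    exact hv
  have h2 : ∑ v ∈ W, v.ord g = 0 := by
    rw [← hgsum]
    refine (finsum_eq_sum_of_support_subset _ (fun v hv => ?_)).symm
    rw [hW, Finset.coe_union, Finset.coe_union]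
    refine Or.inr (Or.inr ?_)
    rw [Set.Finite.coe_toFinset]
    exact hv
  have h3 : (d : ℤ) * deg k ![X, Y] =
      ∑ v ∈ W, (v.ord g - d * min 0 (min (v.ord X) (v.ord Y))) := by
    rw [h1, Finset.sum_sub_distrib, h2, ← Finset.mul_sum, zero_sub, ← mul_neg]
    congr 1
    push_cast
    rw [← Finset.sum_neg_distrib]
    exact Finset.sum_congr rfl (fun v _ => poleOrder_two v X Y)
  rw [h3]
  refine (Finset.sum_subset hSW (fun v _ hv => ?_)).symm
  rw [hS v hv, sub_self]

end Pool.Agent.H3.OD
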