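import Pool.Agent.H3.OD.BRG
import Pool.Agent.H3.OD.BRF
import Pool.Agent.H3.OD.ELM
import Pool.Agent.H3.OD.RAM
import Pool.Agent.H3.OD.SU1
import Pool.Agent.H3.OD.FO
import Pool.Agent.H14.OD.DIG
import Pool.Agent.H14.OD.EXN
import Pool.Agent.H17.OD.BRD
import Pool.Agent.H17.OD.DEP
import Pool.Agent.H34.OD.LTN
import Pool.Agent.H54.OD.LTF
import Pool.Agent.H69.OD.RTP
import Pool.Agent.H72.OD.PSH

/-!
# MP_70ba79_ag, first order differential equations: assembly of the board `ode2_modules`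
(sections 3 and 4 of `/team-store/H92_T3.md`)

`brg` is unconditional; `fo_of` needs T3 (board `ode_modules`).
-/

set_option autoImplicit false

namespace Pool.Agent.H3.OD

theorem ltn : T_LTN := Pool.Agent.H34.OD2.pf_LTN

theorem brf : T_BRF := pf_BRF (Pool.Agent.H14.OD.pf_EXN Pool.Agent.H72.OD.pf_PSH
  Pool.Agent.H14.OD.pf_DIG) (Pool.Agent.H54.OD2.pf_LTF ltn) Pool.Agent.H69.OD.pf_RTP
  Pool.Agent.H72.OD.pf_PSH

theorem brg : T_BRG := pf_BRG brf Pool.Agent.H17.OD2.pf_BRD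

theorem elm : T_ELM := pf_ELM Pool.Agent.H17.OD2.pf_DEP

theorem ram_of (T3 : Pool.Agent.H92.OD.T_T3) : T_RAM := pf_RAM T3 elm brg ltn

theorem fo_of (T3 : Pool.Agent.H92.OD.T_T3) : T_FO := pf_FO (ram_of T3) pf_SU1

end Pool.Agent.H3.OD
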