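import Pool.Agent.H92.OD.Defs
import Pool.Agent.H27.LV.Targets2

/-!
# MP_70ba79_ag, first order differential equations: places, elimination, ramification and the
degree bound (targets of the board `ode2_modules`; sections 3 and 4 of `/team-store/H92_T3.md`)
-/

set_option autoImplicit false

namespace Pool.Agent.H3.OD

open MvPolynomial SC Pool.Agent.H92.OD
open Pool.Agent.H27.LV (ge deg poleOrder)

/-- the residue field of the place `v` is `k` -/
def Rtl {k F : Type} [Field k] [Field F] [Algebra k F] (v : DV k F) : Prop :=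
  ∀ z : F, 0 ≤ v.ord z → ∃ c : k, ge v 1 (z - algebraMap k F c)

/-- `φ` embeds `F` in the field of series in `u ^ (1/n)`, and the order in `u ^ (1/n)` is `v` -/
structure Emb {k F : Type} [Field k] [Field F] [Algebra k F] (v : DV k F) (n : ℕ)
    (φ : F →ₐ[k] HS k) : Prop where
  ord : ∀ z, z ≠ 0 → IsO (φ z) ((v.ord z : ℚ) / n)
  lat : ∀ z, Lat n (φ z)

/-! ## Places and Hahn series -/

/-- PSH: power series as series in `u ^ (1/n)` -/
def T_PSH : Prop := ∀ (k : Type) [Field k] [CharZero k] (n : ℕ), 0 < n →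
  ∃ e : PowerSeries k →+* HS k, (∀ c : k, e (PowerSeries.C c) = algebraMap k (HS k) c) ∧
    e PowerSeries.X = sg (1 / (n : ℚ)) 1 ∧
    (∀ (f : PowerSeries k) (m : ℕ), cf (e f) ((m : ℚ) / n) = PowerSeries.coeff m f) ∧
    ∀ (f : PowerSeries k) (r : ℚ), (∀ m : ℕ, r ≠ (m : ℚ) / n) → cf (e f) r = 0

/-- DIG: expansion of the elements of the valuation ring in powers of a uniformiser -/
def T_DIG : Prop := ∀ (k F : Type) [Field k] [Field F] [Algebra k F] (v : DV k F) (p : F),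
  Rtl v → v.ord p = 1 → ∃ ψ : v.vs →+* PowerSeries k,
    (∀ c : k, ψ (algebraMap k v.vs c) = PowerSeries.C c) ∧
    ∀ (z : v.vs) (N : ℕ), ge v N
      ((z : F) - ∑ i ∈ Finset.range N, algebraMap k F (PowerSeries.coeff i (ψ z)) * p ^ i)

/-- EXN: embedding with a given uniformiser -/
def T_EXN : Prop := ∀ (k F : Type) [Field k] [CharZero k] [Field F] [Algebra k F] (v : DV k F)
  (p : F) (n : ℕ), Rtl v → v.ord p = 1 → 0 < n →
  ∃ φ : F →ₐ[k] HS k, φ p = sg (1 / (n : ℚ)) 1 ∧ Emb v n φ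

/-- LTN: the series in `u ^ (1/n)` are a subfield -/
def T_LTN : Prop := ∀ (k : Type) [Field k] [CharZero k] (n : ℕ), 0 < n →
  ∃ L : IntermediateField k (HS k), ∀ y, y ∈ L ↔ Lat n y

/-- LTF: the place of the field of series in `u` -/
def T_LTF : Prop := ∀ (k : Type) [Field k] [CharZero k],
  ∃ (L : IntermediateField k (HS k)) (v : DV k L), (∀ y, y ∈ L ↔ Lat 1 y) ∧ Rtl v ∧
    ∀ y : L, y ≠ 0 → IsO (y : HS k) (v.ord y)

/-- RTP: roots of power series -/
def T_RTP : Prop := ∀ (k : Type) [Field k] [IsAlgClosed k] [CharZero k] (n : ℕ)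
  (f : PowerSeries k), 0 < n → PowerSeries.constantCoeff f ≠ 0 → ∃ g : PowerSeries k, g ^ n = f

/-- BRF: embedding with an element of value `n` sent to `u` -/
def T_BRF : Prop := ∀ (k F : Type) [Field k] [IsAlgClosed k] [CharZero k] [Field F] [Algebra k F]
  (v : DV k F) (u : F) (n : ℕ), Rtl v → 0 < n → v.ord u = n →
  ∃ φ : F →ₐ[k] HS k, φ u = uu k ∧ Emb v n φ

/-- BRD: the embedding commutes with the derivations -/
def T_BRD : Prop := ∀ (k K : Type) [Field k] [IsAlgClosed k] [CharZero k] [Field K] [Algebra k K]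
  [Algebra.EssFiniteType k K], Algebra.trdeg k K = 1 → ∀ (φ : K →ₐ[k] HS k) (u : K),
  φ u = uu k → ∀ D : Derivation k K K, D u = u → ∀ z, φ (D z) = DF (φ z)

/-- BRG: bridge -/
def T_BRG : Prop := ∀ (k K : Type) [Field k] [IsAlgClosed k] [CharZero k] [Field K] [Algebra k K]
  [Algebra.EssFiniteType k K], Algebra.trdeg k K = 1 → ∀ (v : DV k K) (u : K) (n : ℕ), 0 < n →
  v.ord u = n → ∃ φ : K →ₐ[k] HS k, φ u = uu k ∧ Emb v n φ ∧
    ∀ D : Derivation k K K, D u = u → ∀ z, φ (D z) = DF (φ z)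

/-! ## Elimination -/

/-- DEP: three rational functions on an irreducible surface are algebraically dependent -/
def T_DEP : Prop := ∀ (k : Type) [Field k] (P : MvPolynomial (Fin 3) k), Irreducible P →
  ∀ (f : Fin 3 → MvPolynomial (Fin 3) k) (h : MvPolynomial (Fin 3) k), ¬ P ∣ h →
  ∃ R : MvPolynomial (Fin 3) k, R ≠ 0 ∧ ∀ (K : Type) [Field K] [Algebra k K] (x : Fin 3 → K),
    aeval x P = 0 → aeval x h ≠ 0 → aeval (fun i => aeval x (f i) / aeval x h) R = 0

/-- ELM: differential equations over `k(u)` for the coordinates -/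
def T_ELM : Prop := ∀ (k : Type) [Field k] [CharZero k] (Q1 : MvPolynomial (Fin 3) k)
  (a b : MvPolynomial (Fin 2) k), Q1 ≠ 0 → ∃ Qx Qy : MvPolynomial (Fin 3) k, Qx ≠ 0 ∧ Qy ≠ 0 ∧
  ∀ (K : Type) [Field K] [Algebra k K] (X Y u : K) (D : Derivation k K K), D X ≠ 0 →
    aeval ![X, Y, D Y / D X] Q1 = 0 → aeval ![X, Y] b ≠ 0 →
    u = aeval ![X, Y] a / aeval ![X, Y] b → u ≠ 0 → D u = u →
    aeval ![u, X, D X] Qx = 0 ∧ aeval ![u, Y, D Y] Qy = 0

/-! ## Ramification and degree -/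

/-- RAM: bounded contact of the solutions of a differential equation with a curve -/
def T_RAM : Prop := ∀ (k : Type) [Field k] [IsAlgClosed k] [CharZero k]
  (Q1 : MvPolynomial (Fin 3) k) (a b : MvPolynomial (Fin 2) k), Q1 ≠ 0 → ∃ q : ℕ,
  ∀ (K : Type) [Field K] [Algebra k K] [Algebra.EssFiniteType k K], Algebra.trdeg k K = 1 →
  ∀ (X Y : K) (D : Derivation k K K), IntermediateField.adjoin k {X, Y} = ⊤ → D X ≠ 0 →
    aeval ![X, Y, D Y / D X] Q1 = 0 → aeval ![X, Y] b ≠ 0 →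
    ∀ v : DV k K, v.ord (aeval ![X, Y] a / aeval ![X, Y] b) ≤ q

/-- SU1: the degree as a sum of local contributions -/
def T_SU1 : Prop := ∀ (k K : Type) [Field k] [IsAlgClosed k] [CharZero k] [Field K] [Algebra k K]
  [Algebra.EssFiniteType k K], Algebra.trdeg k K = 1 → ∀ (d : ℕ) (g X Y : K), g ≠ 0 →
  ∀ S : Finset (DV k K), (∀ v, v ∉ S → v.ord g = d * min 0 (min (v.ord X) (v.ord Y))) →
  (d : ℤ) * deg k ![X, Y] = ∑ v ∈ S, (v.ord g - d * min 0 (min (v.ord X) (v.ord Y)))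

/-- FO: the degree of the solutions of a differential equation of first order -/
def T_FO : Prop := ∀ (k : Type) [Field k] [IsAlgClosed k] [CharZero k] (d : ℕ)
  (G Q1 : MvPolynomial (Fin 3) k), Q1 ≠ 0 → ∃ C : ℕ,
  ∀ (K : Type) [Field K] [Algebra k K] [Algebra.EssFiniteType k K], Algebra.trdeg k K = 1 →
  ∀ (X Y : K) (D : Derivation k K K), IntermediateField.adjoin k {X, Y} = ⊤ → D ≠ 0 →
    (D X ≠ 0 → aeval ![X, Y, D Y / D X] Q1 = 0) → aeval ![1, X, Y] G ≠ 0 →
    ∀ S : Finset (DV k K),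
    (∀ v, v ∉ S → v.ord (aeval ![1, X, Y] G) = d * min 0 (min (v.ord X) (v.ord Y))) →
    d * deg k ![X, Y] ≤ C * S.card

end Pool.Agent.H3.OD
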