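import Pool.Agent.H3.OD.Targets
import Pool.Agent.H27.LV.Curve

/-!
# MP_70ba79_ag: bridge between places and Hahn series (BRG)
-/

set_option autoImplicit false

namespace Pool.Agent.H3.OD

open MvPolynomial SC Pool.Agent.H92.OD

/-- BRG: bridge -/
theorem pf_BRG (BRF : T_BRF) (BRD : T_BRD) : T_BRG := by
  intro k K _ _ _ _ _ _ htr v u n hn hu
  obtain ⟨φ, h1, h2⟩ := BRF k K v u n (Pool.Agent.H27.LV.rat k K htr v).2 hn hu
  exact ⟨φ, h1, h2, fun D hD z => BRD k K htr φ u h1 D hD z⟩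

end Pool.Agent.H3.OD
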